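import Pool.Agent.H62.BKR

set_option autoImplicit false

namespace Pool.Agent.Results.MP_950aae_pr.FirstOrder

open MeasureTheory ProbabilityTheory Measure unitInterval Filter Topology Finset SimpleGraph
open scoped ENNReal

noncomputable section

/-- The full binary tree: vertices are finite words in two letters, the children of `l` are `b :: l`. -/
def T2 : SimpleGraph (List Bool) := fromRel fun u v => ∃ b, v = b :: u

variable {V : Type} (G : SimpleGraph V)

def ber (p : I) : Measure Prop := toNNReal p • dirac True + toNNReal (σ p) • dirac False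

instance (p : I) : IsProbabilityMeasure (ber p) := ⟨by simp [ber, ← ENNReal.coe_add]⟩

def nu (p : I) (e : Sym2 V) : Measure Prop := toNNReal p • dirac (e ∈ G.edgeSet) + toNNReal (σ p) • dirac False

instance (p : I) (e : Sym2 V) : IsProbabilityMeasure (nu G p e) := ⟨by simp [nu, ← ENNReal.coe_add]⟩

def mu (p : I) : Measure (Sym2 V → Prop) := infinitePi (nu G p)

instance (p : I) : IsProbabilityMeasure (mu G p) := by unfold mu; infer_instance

lemma mu_restrict (p : I) (F : Finset (Sym2 V)) (hF : ∀ e ∈ F, e ∈ G.edgeSet) (A : Set (F → Prop)) :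
    mu G p (F.restrict ⁻¹' A) = Measure.pi (fun _ : F => ber p) A := by
  rw [← Measure.map_apply (Finset.measurable_restrict F) .of_discrete, mu, infinitePi_map_restrict]
  congr 2
  funext i
  simp [nu, ber, hF i i.2]

lemma dep_eq {F : Finset (Sym2 V)} {A : Set (Sym2 V → Prop)} (h : DependsOn (· ∈ A) F) :
    A = F.restrict ⁻¹' (F.restrict '' A) := by
  refine (Set.subset_preimage_image _ _).antisymm fun x ⟨y, h1, h2⟩ => ?_
  rw [show (x ∈ A) = (y ∈ A) from h fun i hi => (congrFun h2 ⟨i, hi⟩).symm]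
  exact h1

lemma dep_meas {F : Finset (Sym2 V)} {A : Set (Sym2 V → Prop)} (h : DependsOn (· ∈ A) F) : MeasurableSet A := by
  rw [dep_eq h]
  exact Finset.measurable_restrict F .of_discrete

lemma dep_cont {F : Finset (Sym2 V)} (hF : ∀ e ∈ F, e ∈ G.edgeSet) {A : Set (Sym2 V → Prop)}
    (h : DependsOn (· ∈ A) F) : Continuous fun p : I => (mu G p).real A := by
  classical
  have : ∀ p : I, (mu G p).real A = ∑ y ∈ (F.restrict '' A).toFinset, ∏ i, (ber p).real {y i} := fun p => by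
    rw [dep_eq h, Measure.real, mu_restrict G p F hF, ← dep_eq h, ← Set.coe_toFinset (F.restrict '' A),
      ← sum_measure_singleton, ENNReal.toReal_sum fun _ _ => measure_ne_top _ _, toFinset_coe]
    refine sum_congr rfl fun y _ => ?_
    rw [← Set.univ_pi_singleton, pi_pi, ENNReal.toReal_prod]
    rfl
  simp only [this]
  refine continuous_finsetSum _ fun y _ => continuous_finsetProd _ fun i _ => ?_
  by_cases c : y i
  · simp only [eq_true c, ber, Measure.real]
    simp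
    fun_prop
  · simp only [eq_false c, ber, Measure.real]
    simp
    fun_prop

lemma bk (p : I) {F : Finset (Sym2 V)} (hF : ∀ e ∈ F, e ∈ G.edgeSet) {A B C : Set (Sym2 V → Prop)}
    (hA : DependsOn (· ∈ A) F) (hB : DependsOn (· ∈ B) F)
    (h : ∀ x ∈ C, ∃ J : Set (Sym2 V), (∀ z, (∀ i ∈ J, z i = x i) → z ∈ A) ∧ ∀ z, (∀ i ∉ J, z i = x i) → z ∈ B) :
    mu G p C ≤ mu G p A * mu G p B := by
  classical
  rw [dep_eq hA, dep_eq hB, mu_restrict G p F hF, mu_restrict G p F hF]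
  refine (measure_mono (Set.subset_preimage_image F.restrict C)).trans ?_
  rw [mu_restrict G p F hF]
  refine Pool.Agent.H62.BKR.bkr_fin (ber p) _ _ _ .of_discrete .of_discrete .of_discrete ?_
  rintro _ ⟨x, hx, rfl⟩
  obtain ⟨J, h1, h2⟩ := h x hx
  have k : ∀ z : F → Prop, F.restrict (fun e => if c : e ∈ F then z ⟨e, c⟩ else x e) = z := fun z => by
    funext i; simp [Finset.restrict]
  refine ⟨fun i => decide (i.1 ∈ J), fun z hz => ⟨_, h1 _ fun i hi => ?_, k z⟩, fun z hz => ⟨_, h2 _ fun i hi => ?_, k z⟩⟩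
  · split_ifs with c
    exacts [hz ⟨i, c⟩ (by simpa), rfl]
  · split_ifs with c
    exacts [hz ⟨i, c⟩ (by simpa), rfl]

lemma mu_aut (p : I) (φ : G ≃g G) {A : Set (Sym2 V → Prop)} (hA : MeasurableSet A) :
    mu G p ((fun ξ e => ξ (Sym2.map φ e)) ⁻¹' A) = mu G p A := by
  let e : Sym2 V ≃ Sym2 V := ⟨Sym2.map φ.symm, Sym2.map φ, fun x => by simp [Sym2.map_map], fun x => by simp [Sym2.map_map]⟩
  have := infinitePi_map_piCongrLeft (X := fun _ => Prop) (nu G p) e
  have a : (fun i => nu G p (e i)) = nu G p := funext fun i => by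
    simp only [nu, e, Equiv.coe_fn_mk, Iso.map_mem_edgeSet_iff]
  rw [a] at this
  conv_rhs => rw [mu, ← this, Measure.map_apply (MeasurableEquiv.measurable _) hA]
  congr 2
  funext ξ i
  simp [MeasurableEquiv.piCongrLeft, Equiv.piCongrLeft_apply, e]

def Wit (ξ : Sym2 V → Prop) (n : ℕ) (f : List Bool → V) : Prop :=
  Set.InjOn f {l | l.length ≤ n} ∧ ∀ b l, l.length < n → G.Adj (f l) (f (b :: l)) ∧ ξ s(f l, f (b :: l))

def E (n : ℕ) (v : V) : Set (Sym2 V → Prop) := {ξ | ∃ f, f [] = v ∧ Wit G ξ n f}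

def B (v : V) : ℕ → Set V
  | 0 => {v}
  | m + 1 => B v m ∪ ⋃ x ∈ B v m, G.neighborSet x

variable {G}

lemma B_fin (hG : ∀ v, (G.neighborSet v).Finite) (v : V) (m : ℕ) : (B G v m).Finite := by
  induction m with
  | zero => exact Set.finite_singleton _
  | succ m ih => exact ih.union (ih.biUnion fun x _ => hG x)

lemma B_mono (v : V) : Monotone (B G v) := monotone_nat_of_le_succ fun _ => Set.subset_union_left

lemma mem_B {ξ : Sym2 V → Prop} {n : ℕ} {f : List Bool → V} (h : Wit G ξ n f) :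
    ∀ l : List Bool, l.length ≤ n → f l ∈ B G (f []) l.length
  | [], _ => rfl
  | b :: l, c => .inr (Set.mem_biUnion (mem_B h l (by simp at c; omega)) (h.2 b l (by simpa using c)).1)

lemma dep (hG : ∀ v, (G.neighborSet v).Finite) (n : ℕ) (v : V) : ∃ F : Finset (Sym2 V),
    (∀ e ∈ F, e ∈ G.edgeSet) ∧ DependsOn (· ∈ E G n v) F := by
  refine ⟨((B_fin hG v n).biUnion fun x _ => (hG x).image fun y => s(x, y)).toFinset, fun e he => ?_, ?_⟩
  · simp only [Set.Finite.mem_toFinset, Set.mem_iUnion] at he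
    obtain ⟨x, -, y, h, rfl⟩ := he
    exact h
  · have : ∀ x y : Sym2 V → Prop, (∀ i ∈ ⋃ x ∈ B G v n, (fun y => s(x, y)) '' G.neighborSet x, x i = y i) →
        x ∈ E G n v → y ∈ E G n v := by
      rintro x y h ⟨f, rfl, h2⟩
      refine ⟨f, rfl, h2.1, fun b l c => ⟨(h2.2 b l c).1, ?_⟩⟩
      rw [← h _ (Set.mem_biUnion (B_mono _ c.le (mem_B h2 l c.le)) ⟨_, (h2.2 b l c).1, rfl⟩)]
      exact (h2.2 b l c).2
    intro x y h
    rw [Set.Finite.coe_toFinset] at h
    exact propext ⟨this x y h, this y x fun i hi => (h i hi).symm⟩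

lemma E_meas (hG : ∀ v, (G.neighborSet v).Finite) (n : ℕ) (v : V) : MeasurableSet (E G n v) := by
  obtain ⟨F, -, h⟩ := dep hG n v
  exact dep_meas h

lemma E_anti (v : V) : Antitone fun n => E G n v := fun m n h ξ ⟨f, h1, h2, h3⟩ =>
  ⟨f, h1, h2.mono fun l (c : _ ≤ _) => c.trans h, fun b l c => h3 b l (c.trans_le h)⟩

lemma E_le (hG : ∀ v, (G.neighborSet v).Finite) (ht : ∀ u v, ∃ φ : G ≃g G, φ u = v) (p : I) (n : ℕ) (u v : V) :
    mu G p (E G n u) ≤ mu G p (E G n v) := by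
  obtain ⟨φ, rfl⟩ := ht u v
  rw [← mu_aut G p φ (E_meas hG n u)]
  refine measure_mono ?_
  rintro ξ ⟨f, h1, h2, h3⟩
  exact ⟨φ ∘ f, congrArg φ h1, φ.injective.comp_injOn h2, fun b l c => ⟨φ.map_adj_iff.2 (h3 b l c).1, (h3 b l c).2⟩⟩

lemma step (hG : ∀ v, (G.neighborSet v).Finite) (ht : ∀ u v, ∃ φ : G ≃g G, φ u = v) (p : I) (n : ℕ) (o : V) :
    (mu G p).real (E G (n + 1) o) ≤ #(hG o).toFinset ^ 2 * (mu G p).real (E G n o) ^ 2 := by
  classical
  let C : V × V → Set (Sym2 V → Prop) := fun q => {x | ∃ J : Set (Sym2 V),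
    (∀ z, (∀ i ∈ J, z i = x i) → z ∈ E G n q.1) ∧ ∀ z, (∀ i ∉ J, z i = x i) → z ∈ E G n q.2}
  have a1 : E G (n + 1) o ⊆ ⋃ q ∈ (hG o).toFinset ×ˢ (hG o).toFinset, C q := by
    rintro ξ ⟨f, rfl, h2, h3⟩
    have k : ∀ c (z : Sym2 V → Prop), (∀ b l, l.length < n → z s(f (l ++ [c]), f (b :: l ++ [c])) =
        ξ s(f (l ++ [c]), f (b :: l ++ [c]))) → z ∈ E G n (f [c]) := fun c z hz =>
      ⟨fun l => f (l ++ [c]), rfl, fun l h l' h' e => List.append_cancel_right
        (h2 (by simpa using h) (by simpa using h') e), fun b l h => ⟨(h3 b _ (by simpa)).1, by rw [hz b l h]; exact (h3 b _ (by simpa)).2⟩⟩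
    refine Set.mem_iUnion₂.2 ⟨(f [true], f [false]), by simp [(h3 _ [] (by simp)).1],
      {e | ∃ b l, l.length < n ∧ e = s(f (l ++ [true]), f (b :: l ++ [true]))},
      fun z hz => k _ z fun b l h => hz _ ⟨b, l, h, rfl⟩, fun z hz => k _ z fun b l h => hz _ ?_⟩
    rintro ⟨b', l', h', e⟩
    rcases Sym2.eq_iff.1 e with e | e
    · simpa using congrArg List.getLast? (h2 (by simp; omega) (by simp; omega) e.1)
    · have := congrArg List.getLast? (h2 (by simp; omega) (by simp; omega) e.1)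
      rw [List.getLast?_concat, List.getLast?_concat] at this
      simp at this
  refine (measureReal_mono a1 (measure_ne_top _ _)).trans ((measureReal_biUnion_finset_le _ _).trans
    ((sum_le_card_nsmul _ _ ((mu G p).real (E G n o) ^ 2) fun q _ => ?_).trans_eq (by simp [sq])))
  obtain ⟨F, h1, h2⟩ := dep hG n q.1
  obtain ⟨F', h3, h4⟩ := dep hG n q.2
  have := (bk G p (F := F ∪ F') (fun e he => (mem_union.1 he).elim (h1 e) (h3 e)) (h2.mono (by simp)) (h4.mono (by simp))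
    (C := C q) fun x hx => hx).trans (mul_le_mul' (E_le hG ht p n _ o) (E_le hG ht p n _ o))
  rw [sq, Measure.real, Measure.real, ← ENNReal.toReal_mul]
  exact ENNReal.toReal_mono (by finiteness) this

lemma gap {t : ℕ → ℝ} {D c : ℝ} (hD : 0 ≤ D) (hc : 0 < c) (h1 : ∀ n, c ≤ t n) (h2 : ∀ n, t (n + 1) ≤ D * t n ^ 2)
    (h3 : ∀ n, t n ≤ 1) (n : ℕ) : 1 ≤ D * t n := by
  by_contra! h
  have h0 : ∀ n, 0 ≤ D * t n := fun n => mul_nonneg hD (hc.le.trans (h1 n))
  have a : ∀ m, D * t (n + m) ≤ (D * t n) ^ (m + 1) := fun m => by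
    induction m with
    | zero => simp
    | succ m ih =>
      calc _ ≤ D * (D * t (n + m) ^ 2) := mul_le_mul_of_nonneg_left (h2 _) hD
        _ = D * t (n + m) * (D * t (n + m)) := by ring
        _ ≤ (D * t n) ^ (m + 1) * (D * t n) := mul_le_mul ih (ih.trans (pow_le_of_le_one (h0 n) h.le (by simp))) (h0 _)
          (pow_nonneg (h0 n) _)
  obtain ⟨m, hm⟩ := exists_pow_lt_of_lt_one hc h
  have := h2 (n + m)
  have := h1 (n + m + 1)
  have := (a m).trans (pow_le_pow_of_le_one (h0 n) h.le (Nat.le_succ m))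
  nlinarith [h0 (n + m), h3 (n + m)]

lemma konig (hG : ∀ v, (G.neighborSet v).Finite) {ξ : Sym2 V → Prop} {v : V} (h : ∀ n, ξ ∈ E G n v) :
    T2 ⊑ G ⊓ fromEdgeSet {e | ξ e} := by
  choose f h1 h2 using h
  have ev : ∀ m, ∀ᶠ n in hyperfilter ℕ, m ≤ n := fun m => (eventually_ge_atTop m).filter_mono Nat.hyperfilter_le_atTop
  have : ∀ l, ∃ x, ∀ᶠ n in hyperfilter ℕ, f n l = x := fun l => by
    obtain ⟨x, -, hx⟩ := Ultrafilter.eq_pure_of_finite_mem (f := (hyperfilter ℕ).map fun n => f n l) (B_fin hG v l.length)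
      (Ultrafilter.mem_map.2 ((ev l.length).mono fun n c => h1 n ▸ mem_B (h2 n) l c))
    exact ⟨x, Ultrafilter.mem_map.1 (show {x} ∈ _ by rw [hx]; simp)⟩
  choose g hg using this
  have a : ∀ b l, (G ⊓ fromEdgeSet {e | ξ e}).Adj (g l) (g (b :: l)) := fun b l => by
    obtain ⟨n, c1, c2, c3⟩ := ((hg l).and ((hg (b :: l)).and (ev (l.length + 1)))).exists
    rw [← c1, ← c2]
    have := (h2 n).2 b l c3
    exact (inf_adj ..).2 ⟨this.1, (fromEdgeSet_adj ..).2 ⟨this.2, this.1.ne⟩⟩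
  refine ⟨⟨⟨g, fun {l l'} c => ?_⟩, fun l l' (e : g l = g l') => ?_⟩⟩
  · rcases ((fromRel_adj ..).1 c).2 with ⟨b, rfl⟩ | ⟨b, rfl⟩
    exacts [a b l, (a b l').symm]
  · obtain ⟨n, c1, c2, c3, c4⟩ := ((hg l).and ((hg l').and ((ev l.length).and (ev l'.length)))).exists
    exact (h2 n).1 c3 c4 (by rw [c1, c2, e])

theorem result (V : Type) [Countable V] (G : SimpleGraph V) (hG : ∀ v, (G.neighborSet v).Finite)
    (ht : ∀ u v, ∃ φ : G ≃g G, φ u = v) (hT : T2 ⊑ G) (pc : I)
    (hp : IsGLB {p : I | setBernoulli G.edgeSet p {ω | T2 ⊑ G ⊓ fromEdgeSet ω} = 1} pc) :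
    0 < setBernoulli G.edgeSet pc {ω | T2 ⊑ G ⊓ fromEdgeSet ω} := by
  have e : ∀ p, setBernoulli G.edgeSet p {ω | T2 ⊑ G ⊓ fromEdgeSet ω} = mu G p {ξ | T2 ⊑ G ⊓ fromEdgeSet {e | ξ e}} :=
    fun p => setBernoulli_apply' ..
  obtain ⟨o⟩ : Nonempty V := hT.elim fun f => ⟨f []⟩
  set D : ℝ := #(hG o).toFinset ^ 2
  have lim : ∀ p, Tendsto (fun n => (mu G p).real (E G n o)) atTop (𝓝 ((mu G p).real (⋂ n, E G n o))) := fun p =>
    (ENNReal.tendsto_toReal (measure_ne_top _ _)).comp (tendsto_measure_iInter_atTop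
      (fun n => (E_meas hG n o).nullMeasurableSet) (E_anti o) ⟨0, measure_ne_top _ _⟩)
  have a1 : ∀ n, 1 ≤ D * (mu G pc).real (E G n o) := fun n => by
    obtain ⟨F, h1, h2⟩ := dep hG n o
    refine (isClosed_le continuous_const (continuous_const.mul (dep_cont G h1 h2))).closure_subset
      (closure_mono (fun p hp => ?_) (hp.mem_closure ⟨1, ?_⟩))
    · obtain ⟨v, hv⟩ : ∃ v, mu G p (⋂ n, E G n v) ≠ 0 := by
        by_contra! c
        refine one_ne_zero ((hp.symm.trans (e p)).trans (measure_mono_null ?_ (measure_iUnion_null c)))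
        rintro ξ ⟨f⟩
        refine Set.mem_iUnion.2 ⟨f [], Set.mem_iInter.2 fun n => ⟨f, rfl, f.injective.injOn, fun b l _ => ?_⟩⟩
        have := f.toHom.map_adj ((fromRel_adj _ l (b :: l)).2 ⟨by simp, .inl ⟨b, rfl⟩⟩)
        exact ⟨this.1, ((fromEdgeSet_adj ..).1 this.2).1⟩
      exact gap (t := fun n => (mu G p).real (E G n o)) (by positivity) (ENNReal.toReal_pos hv (measure_ne_top _ _))
        (fun n => ENNReal.toReal_mono (measure_ne_top _ _) ((measure_mono (Set.iInter_subset _ n)).trans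
          (E_le hG ht p n v o))) (fun n => step hG ht p n o) (fun n => measureReal_le_one) n
    · rw [Set.mem_ofPred_eq, setBernoulli_one, dirac_apply_of_mem (by simpa using hT)]
  have a2 := ge_of_tendsto' ((lim pc).const_mul D) a1
  rw [e]
  refine lt_of_lt_of_le (pos_iff_ne_zero.2 fun c => ?_) (measure_mono (s := ⋂ n, E G n o) fun ξ h => konig hG (Set.mem_iInter.1 h))
  rw [Measure.real, c] at a2
  norm_num at a2

end

end Pool.Agent.Results.MP_950aae_pr.FirstOrder
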